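import Pool.Agent.R482.ST.Dens

/-!
# Sets of small density in short windows around the values of functions of large order, for almost all arguments

`f n`, `n = 0, 1, 2, …`, are positive functions on `(a, ∞)`, `a ≥ 0`, such that `f n x / x ^ (w n)` is nondecreasing. If
`S n` has at most `C n * X` members of height at most `X`, and the sums of `C n * L n * (1 + log (f n y / f n x)) / w n`
converge, then for almost all `x > a` and all but finitely many `n` no member of `S n` has a height `H` with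
`|H - f n x| ≤ L n`. For `f n x = x ^ (v n)` it is the sum of `C n * L n`, whatever the sequence `v n` is.
-/

set_option autoImplicit false

open Filter Topology Finset MeasureTheory
open scoped ENNReal

namespace Pool.Agent.Zk39.Tr

open Pool.Agent.R482.ST (B ae_core)

lemma exp_half {t : ℝ} (h0 : 0 ≤ t) (h1 : t ≤ 1) : Real.exp (-t) ≤ 1 - t / 2 := by
  rw [Real.exp_neg, inv_le_comm₀ (Real.exp_pos _) (by linarith)]
  refine le_trans ?_ (Real.add_one_le_exp t)
  rw [inv_le_iff_one_le_mul₀ (by linarith)]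
  nlinarith

lemma vol_piece {f : ℝ → ℝ} {a w : ℝ} (ha : 0 ≤ a) (hw : 1 ≤ w)
    (hf : ∀ x y : ℝ, a < x → x ≤ y → 0 < f x ∧ f x / x ^ w ≤ f y / y ^ w) {H L lo hi G : ℝ} (hlo : a < lo)
    (hL : 0 ≤ L) (hG : 0 < G) (hLG : 4 * L ≤ G) :
    volume {x : ℝ | lo ≤ x ∧ x ≤ hi ∧ G ≤ f x ∧ |H - f x| ≤ L} ≤ ENNReal.ofReal (4 * hi * L / (G * w)) := by
  refine (Real.volume_le_diam _).trans ?_
  have hw0 : 0 < w := by linarith
  have key : ∀ x y : ℝ, lo ≤ x → x ≤ y → y ≤ hi → G ≤ f y → |H - f x| ≤ L → |H - f y| ≤ L →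
      y - x ≤ 4 * hi * L / (G * w) := by
    intro x y hx hxy hy hGy h1 h2
    have hax : a < x := lt_of_lt_of_le hlo hx
    have hx0 : 0 < x := lt_of_le_of_lt ha hax
    have hy0 : 0 < y := lt_of_lt_of_le hx0 hxy
    obtain ⟨p1, p2⟩ := hf x y hax hxy
    have p3 : 0 < f y := lt_of_lt_of_le hG hGy
    have h3 : f y - f x ≤ 2 * L := by
      have e1 := (abs_le.mp h1).2
      have e2 := (abs_le.mp h2).1
      linarith
    set q : ℝ := x / y with hq
    have hq0 : 0 < q := by positivity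
    have hq1 : q ≤ 1 := by rw [hq, div_le_one hy0]; exact hxy
    have p4 : f x ≤ f y * q ^ w := by
      rw [div_le_div_iff₀ (by positivity) (by positivity)] at p2
      rw [hq, Real.div_rpow hx0.le hy0.le, mul_div_assoc', le_div_iff₀ (by positivity)]
      exact p2
    -- `q ^ w ≤ exp (- w (1 - q))`
    set t : ℝ := w * (1 - q) with ht
    have ht0 : 0 ≤ t := mul_nonneg hw0.le (by linarith)
    have p5 : q ^ w ≤ Real.exp (-t) := by
      rw [Real.rpow_def_of_pos hq0]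
      apply Real.exp_le_exp.2
      have := Real.log_le_sub_one_of_pos hq0
      rw [ht]
      nlinarith
    have p6 : f y * (1 - q ^ w) ≤ 2 * L := by nlinarith
    have hqw1 : 0 ≤ 1 - q ^ w := by
      have := Real.rpow_le_one hq0.le hq1 hw0.le
      linarith
    have p7 : G * (1 - q ^ w) ≤ 2 * L := (mul_le_mul_of_nonneg_right hGy hqw1).trans p6
    have p8 : G * (1 - Real.exp (-t)) ≤ 2 * L :=
      (mul_le_mul_of_nonneg_left (by linarith) hG.le).trans p7
    have ht1 : t ≤ 1 := by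
      by_contra hcon
      push Not at hcon
      have e1 : Real.exp (-t) < Real.exp (-1) := Real.exp_lt_exp.2 (by linarith)
      have e2 : Real.exp (-1) ≤ 1 / 2 := by
        have := exp_half (t := 1) (by norm_num) le_rfl
        linarith
      have e3 : G * (1 / 2) < G * (1 - Real.exp (-t)) := mul_lt_mul_of_pos_left (by linarith) hG
      linarith
    have p9 : G * (t / 2) ≤ 2 * L := by
      refine le_trans (mul_le_mul_of_nonneg_left ?_ hG.le) p8
      have := exp_half ht0 ht1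
      linarith
    have p10 : y - x = (1 - q) * y := by
      rw [hq]
      field_simp
    rw [le_div_iff₀ (by positivity), p10]
    calc (1 - q) * y * (G * w) = (2 * (G * (t / 2))) * y := by rw [ht]; ring
      _ ≤ (2 * (2 * L)) * y := mul_le_mul_of_nonneg_right (by linarith) hy0.le
      _ ≤ (2 * (2 * L)) * hi := mul_le_mul_of_nonneg_left hy (by linarith)
      _ = 4 * hi * L := by ring
  apply Metric.ediam_le
  intro x hx y hy
  rw [edist_dist]
  apply ENNReal.ofReal_le_ofReal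
  rw [Real.dist_eq]
  obtain ⟨x1, x2, x3, x4⟩ := hx
  obtain ⟨y1, y2, y3, y4⟩ := hy
  rcases le_total x y with hle | hle
  · rw [abs_sub_comm, abs_of_nonneg (by linarith)]
    exact key x y x1 hle y2 y3 x4 y4
  · rw [abs_of_nonneg (by linarith)]
    exact key y x y1 hle x2 x3 y4 x4

lemma vol_B {T : Type} (S : Set T) (h : T → ℝ) {f : ℝ → ℝ} {a w : ℝ} (ha : 0 ≤ a) (hw : 1 ≤ w)
    (hf : ∀ x y : ℝ, a < x → x ≤ y → 0 < f x ∧ f x / x ^ w ≤ f y / y ^ w) {C L lo hi m : ℝ} (hlo : a < lo)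
    (hlh : lo ≤ hi) (hL : 0 ≤ L) (hC : 0 ≤ C) (hm : 0 < m) (hmf : m ≤ f lo) (hLf : 4 * L ≤ f lo)
    (hS : ∀ X : ℝ, 1 ≤ X → {t | t ∈ S ∧ h t ≤ X}.Finite ∧ ({t | t ∈ S ∧ h t ≤ X}.ncard : ℝ) ≤ C * X) :
    volume (B S h f L lo hi) ≤
      ENNReal.ofReal (32 * hi * (1 + 1 / m) * (C * L * (1 + Real.log (f hi / f lo)) / w)) := by
  classical
  have hw0 : 0 < w := by linarith
  set F0 : ℝ := f lo with hF0
  have hF0p : 0 < F0 := lt_of_lt_of_le hm hmf
  have hlo0 : 0 < lo := lt_of_le_of_lt ha hlo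
  have hhi0 : 0 < hi := lt_of_lt_of_le hlo0 hlh
  have hmono : ∀ x y : ℝ, a < x → x ≤ y → f x ≤ f y := by
    intro x y hx hxy
    have hx0 : 0 < x := lt_of_le_of_lt ha hx
    have hy0 : 0 < y := lt_of_lt_of_le hx0 hxy
    obtain ⟨p1, p2⟩ := hf x y hx hxy
    have p3 : 0 < f y := (hf y y (lt_of_lt_of_le hx hxy) le_rfl).1
    have hxw : 0 < x ^ w := Real.rpow_pos_of_pos hx0 w
    have hyw : x ^ w ≤ y ^ w := Real.rpow_le_rpow hx0.le hxy hw0.le
    rw [div_le_div_iff₀ hxw (lt_of_lt_of_le hxw hyw)] at p2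
    by_contra hcon
    rw [not_le] at hcon
    have e1 : f y * x ^ w < f x * x ^ w := mul_lt_mul_of_pos_right hcon hxw
    have e2 : f x * x ^ w ≤ f x * y ^ w := mul_le_mul_of_nonneg_left hyw p1.le
    linarith
  have hF1 : F0 ≤ f hi := hmono lo hi hlo hlh
  set K : ℕ := ⌊Real.log (f hi / F0) / Real.log 2⌋₊ with hK
  have hl2 : 0 < Real.log 2 := Real.log_pos (by norm_num)
  have hlog0 : 0 ≤ Real.log (f hi / F0) := Real.log_nonneg (by rw [le_div_iff₀ hF0p]; linarith)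
  have hX : ∀ k : ℕ, (1 : ℝ) ≤ (1 + 1 / m) * (2 ^ (k + 2) * F0) := by
    intro k
    have e1 : (1 : ℝ) ≤ 2 ^ (k + 2) := one_le_pow₀ (by norm_num)
    have e2 : F0 ≤ 2 ^ (k + 2) * F0 := le_mul_of_one_le_left hF0p.le e1
    calc (1 : ℝ) = 1 / m * m := by field_simp
      _ ≤ (1 + 1 / m) * (2 ^ (k + 2) * F0) := by
          apply mul_le_mul _ (hmf.trans e2) hm.le (by positivity)
          linarith
  have hsub : B S h f L lo hi ⊆ ⋃ k ∈ range (K + 1),
      ⋃ t ∈ (hS _ (hX k)).1.toFinset, {x : ℝ | lo ≤ x ∧ x ≤ hi ∧ 2 ^ k * F0 ≤ f x ∧ |h t - f x| ≤ L} := by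
    rintro x ⟨hx1, hx2, t, ht, htx⟩
    have hfx : F0 ≤ f x := hmono lo x hlo hx1
    obtain ⟨k, hk1, hk2⟩ := exists_nat_pow_near (x := f x / F0) (y := (2 : ℝ))
      (by rw [le_div_iff₀ hF0p]; linarith) (by norm_num)
    rw [le_div_iff₀ hF0p] at hk1
    rw [div_lt_iff₀ hF0p] at hk2
    rw [Set.mem_iUnion₂]
    refine ⟨k, ?_, ?_⟩
    · rw [mem_range, Nat.lt_succ_iff]
      apply Nat.le_floor
      rw [le_div_iff₀ hl2, ← Real.log_pow]
      apply Real.log_le_log (by positivity)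
      rw [le_div_iff₀ hF0p]
      exact hk1.trans (hmono x hi (lt_of_lt_of_le hlo hx1) hx2)
    · rw [Set.mem_iUnion₂]
      refine ⟨t, ?_, hx1, hx2, hk1, htx⟩
      rw [Set.Finite.mem_toFinset]
      refine ⟨ht, ?_⟩
      have e1 := (abs_le.mp htx).2
      have e3 : F0 ≤ 2 ^ (k + 1) * F0 := le_mul_of_one_le_left hF0p.le (one_le_pow₀ (by norm_num))
      have e2 : 2 ^ (k + 2) * F0 = 2 ^ (k + 1) * F0 + 2 ^ (k + 1) * F0 := by ring
      have e4 : h t ≤ 2 ^ (k + 2) * F0 := by linarith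
      have e5 : 0 ≤ 1 / m * (2 ^ (k + 2) * F0) := by positivity
      linarith
  refine (measure_mono hsub).trans ((measure_biUnion_finset_le _ _).trans ?_)
  have hterm : ∀ k ∈ range (K + 1), volume (⋃ t ∈ (hS _ (hX k)).1.toFinset,
      {x : ℝ | lo ≤ x ∧ x ≤ hi ∧ 2 ^ k * F0 ≤ f x ∧ |h t - f x| ≤ L}) ≤
        ENNReal.ofReal (16 * hi * (1 + 1 / m) * (C * L / w)) := by
    intro k _
    refine (measure_biUnion_finset_le _ _).trans ?_
    have hG : (0 : ℝ) < 2 ^ k * F0 := by positivity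
    have hnn : 0 ≤ 4 * hi * L / (2 ^ k * F0 * w) := by positivity
    have hLG : 4 * L ≤ 2 ^ k * F0 := hLf.trans (le_mul_of_one_le_left hF0p.le (one_le_pow₀ (by norm_num)))
    calc ∑ t ∈ (hS _ (hX k)).1.toFinset, volume {x : ℝ | lo ≤ x ∧ x ≤ hi ∧ 2 ^ k * F0 ≤ f x ∧ |h t - f x| ≤ L}
        ≤ ∑ _t ∈ (hS _ (hX k)).1.toFinset, ENNReal.ofReal (4 * hi * L / (2 ^ k * F0 * w)) :=
          sum_le_sum fun t _ => vol_piece ha hw hf hlo hL hG hLG
      _ = ENNReal.ofReal (((hS _ (hX k)).1.toFinset.card : ℝ) * (4 * hi * L / (2 ^ k * F0 * w))) := by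
          rw [sum_const, nsmul_eq_mul, ENNReal.ofReal_mul (Nat.cast_nonneg _), ENNReal.ofReal_natCast]
      _ ≤ ENNReal.ofReal (C * ((1 + 1 / m) * (2 ^ (k + 2) * F0)) * (4 * hi * L / (2 ^ k * F0 * w))) := by
          apply ENNReal.ofReal_le_ofReal
          apply mul_le_mul_of_nonneg_right _ hnn
          have := (hS _ (hX k)).2
          rwa [Set.ncard_eq_toFinset_card _ (hS _ (hX k)).1] at this
      _ = ENNReal.ofReal (16 * hi * (1 + 1 / m) * (C * L / w)) := by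
          congr 1
          field_simp
          ring
  refine (sum_le_sum hterm).trans ?_
  rw [sum_const, card_range, nsmul_eq_mul, ← ENNReal.ofReal_natCast, ← ENNReal.ofReal_mul (Nat.cast_nonneg _)]
  apply ENNReal.ofReal_le_ofReal
  have hKle : ((K + 1 : ℕ) : ℝ) ≤ 2 * (1 + Real.log (f hi / F0)) := by
    push_cast
    have e1 : (K : ℝ) ≤ Real.log (f hi / F0) / Real.log 2 := Nat.floor_le (by positivity)
    have e2 : Real.log (f hi / F0) / Real.log 2 ≤ 2 * Real.log (f hi / F0) := by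
      rw [div_le_iff₀ hl2]
      have := Real.log_two_gt_d9
      nlinarith
    linarith
  have e3 : 0 ≤ 16 * hi * (1 + 1 / m) * (C * L / w) := by positivity
  calc ((K + 1 : ℕ) : ℝ) * (16 * hi * (1 + 1 / m) * (C * L / w))
      ≤ 2 * (1 + Real.log (f hi / F0)) * (16 * hi * (1 + 1 / m) * (C * L / w)) :=
        mul_le_mul_of_nonneg_right hKle e3
    _ = _ := by ring

/-- **Small sets and the values of functions of large order.** -/
theorem ord_ae {T : Type} (S : ℕ → Set T) (h : T → ℝ) {f : ℕ → ℝ → ℝ} {a : ℝ} (ha : 0 ≤ a) {w : ℕ → ℝ}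
    (hw : ∀ n, 1 ≤ w n)
    (hf : ∀ n, ∀ x y : ℝ, a < x → x ≤ y → 0 < f n x ∧ f n x / x ^ (w n) ≤ f n y / y ^ (w n))
    (hm : ∀ x : ℝ, a < x → ∃ m : ℝ, 0 < m ∧ ∀ n, m ≤ f n x) {C L : ℕ → ℝ} (hC : ∀ n, 0 ≤ C n)
    (hL : ∀ n, 0 ≤ L n) (hLf : ∀ x : ℝ, a < x → ∀ᶠ n in atTop, 4 * L n ≤ f n x)
    (hsum : ∀ x y : ℝ, a < x → x ≤ y → Summable fun n => C n * L n * (1 + Real.log (f n y / f n x)) / w n)
    (hS : ∀ n, ∀ X : ℝ, 1 ≤ X →
      {t | t ∈ S n ∧ h t ≤ X}.Finite ∧ ({t | t ∈ S n ∧ h t ≤ X}.ncard : ℝ) ≤ C n * X) :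
    ∃ N : Set ℝ, volume N = 0 ∧ ∀ x : ℝ, a < x → x ∉ N →
      ∃ n₀ : ℕ, ∀ n : ℕ, n₀ ≤ n → ∀ t ∈ S n, L n < |h t - f n x| := by
  apply ae_core S h
  intro lo hi hlo hlh
  obtain ⟨m, hm0, hmf⟩ := hm lo hlo
  refine ⟨fun n => |32 * hi * (1 + 1 / m) * (C n * L n * (1 + Real.log (f n hi / f n lo)) / w n)|,
    fun n => abs_nonneg _, ((hsum lo hi hlo hlh).mul_left _).abs, ?_⟩
  filter_upwards [hLf lo hlo] with n hn3
  refine (vol_B (S n) h ha (hw n) (hf n) hlo hlh (hL n) (hC n) hm0 (hmf n) hn3 (hS n)).trans ?_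
  exact ENNReal.ofReal_le_ofReal (le_abs_self _)

/-- powers: no condition on the exponents -/
theorem pow_ae {T : Type} (S : ℕ → Set T) (h : T → ℝ) {v : ℕ → ℝ} (hv : ∀ n, 1 ≤ v n)
    {C L : ℕ → ℝ} (hC : ∀ n, 0 ≤ C n)
    (hL : ∀ n, 0 ≤ L n) (hLf : ∀ x : ℝ, 1 < x → ∀ᶠ n in atTop, 4 * L n ≤ x ^ (v n))
    (hsum : Summable fun n => C n * L n)
    (hS : ∀ n, ∀ X : ℝ, 1 ≤ X →
      {t | t ∈ S n ∧ h t ≤ X}.Finite ∧ ({t | t ∈ S n ∧ h t ≤ X}.ncard : ℝ) ≤ C n * X) :
    ∃ N : Set ℝ, volume N = 0 ∧ ∀ x : ℝ, 1 < x → x ∉ N →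
      ∃ n₀ : ℕ, ∀ n : ℕ, n₀ ≤ n → ∀ t ∈ S n, L n < |h t - x ^ (v n)| := by
  refine ord_ae S h zero_le_one hv (f := fun n x => x ^ (v n)) ?_ ?_ hC hL hLf ?_ hS
  · intro n x y hx hxy
    have hx0 : 0 < x := by linarith
    have hy0 : 0 < y := by linarith
    refine ⟨by positivity, ?_⟩
    rw [div_self (by positivity), div_self (by positivity)]
  · intro x hx
    exact ⟨1, one_pos, fun n => Real.one_le_rpow hx.le (by linarith [hv n])⟩
  · intro x y hx hxy
    have hx0 : 0 < x := by linarith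
    have hy0 : 0 < y := by linarith
    have hl : 0 ≤ Real.log (y / x) := Real.log_nonneg (by rw [le_div_iff₀ hx0]; linarith)
    refine Summable.of_nonneg_of_le (fun n => ?_) (fun n => ?_) (hsum.mul_right (1 + Real.log (y / x)))
    · have e : Real.log (y ^ (v n) / x ^ (v n)) = v n * Real.log (y / x) := by
        rw [← Real.div_rpow hy0.le hx0.le, Real.log_rpow (by positivity)]
      rw [e]
      have := hC n
      have := hL n
      have := hv n
      positivity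
    · have e : Real.log (y ^ (v n) / x ^ (v n)) = v n * Real.log (y / x) := by
        rw [← Real.div_rpow hy0.le hx0.le, Real.log_rpow (by positivity)]
      have hvn := hv n
      have hvn0 : 0 < v n := by linarith
      rw [e, mul_div_assoc]
      apply mul_le_mul_of_nonneg_left _ (mul_nonneg (hC n) (hL n))
      rw [div_le_iff₀ hvn0]
      nlinarith

end Pool.Agent.Zk39.Tr
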