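import Pool.Agent.Zk39.PV.Fin

/-!
# The number of the tuples in large boxes for which the measure for the logarithms of rational functions fails
-/

set_option autoImplicit false

namespace Pool.Agent.Zk39.Tr

open Pool.Agent.Zk39.PV Finset

theorem exists_meas (d : ℕ) {θ : ℂ} (hθ : θ = Real.pi ∨ ∃ q : ℚ, 0 < q ∧ q ≠ 1 ∧ θ = ((Real.log q : ℝ) : ℂ)) :
    ∃ E, Meas (fun _ : Fin 1 => θ) d E := by
  rcases hθ with h | ⟨q, hq, hq1, h⟩
  · rw [h]; exact meas_one Pool.Agent.TH456.TM.measT_pi d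
  · rw [h]; exact meas_one (Pool.Agent.TH456.TM.measT_real_log q hq hq1) d

theorem fails_mono {m K : ℕ} {θ : ℂ} {d : ℕ} (y : Fin m × Fin K → ℝ) (H η η' : ℝ) (hη : η' ≤ η)
    (h : Fails y (fun _ : Fin 1 => θ) d H η') : Fails y (fun _ : Fin 1 => θ) d H η := by
  obtain ⟨l, h1, h2, h3⟩ := h
  exact ⟨l, h1, h2, fun hb => h3 fun P hP0 hPd hPH => hη.trans (hb P hP0 hPd hPH)⟩

/-- the theorem on short boxes (the hand-in `RationalFunctionValues`) -/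
theorem short_boxes {K : ℕ} (m d : ℕ) (g : Fin K → RatFunc ℚ) (hg : MI g) (θ : ℂ)
    (hθ : θ = Real.pi ∨ ∃ q : ℚ, 0 < q ∧ q ≠ 1 ∧ θ = ((Real.log q : ℝ) : ℂ)) :
    ∃ C : ℕ, 0 < C ∧ ∀ (N : Fin m → ℕ) (w : ℕ), (∀ v, (w + 2) ^ C ≤ N v) →
      (∀ M : ℕ, 2 ≤ M → (∀ v, N v ≤ M) → ∀ X : ℝ, 1 ≤ X →
        ({n ∈ Box N w | ∃ H : ℝ, 2 ≤ H ∧ H ≤ Real.exp (Real.exp X) ∧
          Fails (vals g n) (fun _ : Fin 1 => θ) d H (1 / (M * H) ^ C)}.ncard : ℝ) * (w + 1) ≤ C * X * (w + 1) ^ m) ∧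
      (∀ 𝓗 : Set ℝ, ¬ BddAbove 𝓗 →
        {n ∈ Box N w | ∃ H₀ : ℝ, ∀ H ∈ 𝓗, H₀ ≤ H → Fails (vals g n) (fun _ : Fin 1 => θ) d H (1 / H ^ C)}.ncard *
          (w + 1) ≤ C * (w + 1) ^ m) := by
  obtain ⟨E, hE⟩ := exists_meas d hθ
  obtain ⟨C, hC, h⟩ := main m 1 d E g hg
  obtain ⟨Θ, hΘ⟩ := exists_nat_ge ‖θ‖
  refine ⟨C * (Θ + 2), by positivity, fun N w hN => ?_⟩
  have hCC : C ≤ C * (Θ + 2) := Nat.le_mul_of_pos_right _ (by omega)
  obtain ⟨-, h2, h3⟩ := h N w (fun _ => θ) fun v => (Nat.pow_le_pow_right (by omega) hCC).trans (hN v)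
  have hCR : (C : ℝ) ≤ ((C * (Θ + 2) : ℕ) : ℝ) := by exact_mod_cast hCC
  refine ⟨fun M hM hNM X hX => ?_, fun 𝓗 h𝓗 => ?_⟩
  · have h4 := h2 hE (M ^ (Θ + 1)) (hM.trans (Nat.le_self_pow (by omega) _))
      (fun v => (hNM v).trans (Nat.le_self_pow (by omega) _)) (fun _ => by
        refine hΘ.trans ?_
        have h5 : Θ < M ^ Θ := Nat.lt_pow_self (by omega)
        have h6 : M ^ Θ ≤ M ^ (Θ + 1) := Nat.pow_le_pow_right (by omega) (by omega)
        exact_mod_cast h5.le.trans h6) X hX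
    have hw : (0 : ℝ) < (w : ℝ) + 1 := by positivity
    have hfin : (Box N w).Finite := box_finite _ _
    have h7 : {n ∈ Box N w | ∃ H : ℝ, 2 ≤ H ∧ H ≤ Real.exp (Real.exp X) ∧
          Fails (vals g n) (fun _ : Fin 1 => θ) d H (1 / (M * H) ^ (C * (Θ + 2)))}.ncard ≤
        {n ∈ Box N w | ∃ H : ℝ, 2 ≤ H ∧ H ≤ Real.exp (Real.exp X) ∧
          Fails (vals g n) (fun _ : Fin 1 => θ) d H (1 / (((M ^ (Θ + 1) : ℕ) : ℝ) * H) ^ C)}.ncard := by
      refine Set.ncard_le_ncard ?_ (hfin.subset fun n hn => hn.1)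
      rintro n ⟨hn, H, hH, hHX, hn3⟩
      refine ⟨hn, H, hH, hHX, fails_mono _ _ _ _ ?_ hn3⟩
      have hM1 : (1 : ℝ) ≤ M := by exact_mod_cast (show 1 ≤ M by omega)
      apply one_div_le_one_div_of_le (by positivity)
      have e1 : ((M : ℝ) * H) ^ (C * (Θ + 2)) = (((M : ℝ) * H) ^ (Θ + 2)) ^ C := by
        rw [← pow_mul, mul_comm (Θ + 2) C]
      rw [e1]
      refine pow_le_pow_left₀ (by positivity) ?_ C
      push_cast
      calc (M : ℝ) ^ (Θ + 1) * H ≤ (M : ℝ) ^ (Θ + 2) * H ^ (Θ + 2) := by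
            refine mul_le_mul (pow_le_pow_right₀ hM1 (by omega)) (le_self_pow₀ (by linarith) (by omega)) (by linarith)
              (by positivity)
        _ = ((M : ℝ) * H) ^ (Θ + 2) := (mul_pow _ _ _).symm
    refine (mul_le_mul_of_nonneg_right (Nat.cast_le.2 h7) hw.le).trans (h4.trans ?_)
    exact mul_le_mul_of_nonneg_right (mul_le_mul_of_nonneg_right hCR (by linarith)) (by positivity)
  · refine le_trans (Nat.mul_le_mul_right _ ?_) ((h3 hE 𝓗 h𝓗).trans (Nat.mul_le_mul_right _ hCC))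
    refine Set.ncard_le_ncard ?_ ((box_finite _ _).subset fun n hn => hn.1)
    rintro n ⟨hn, H₀, hn3⟩
    refine ⟨hn, max H₀ 1, fun H hH hHH => fails_mono _ _ _ _ ?_ (hn3 H hH ((le_max_left _ _).trans hHH))⟩
    have hH1 : 1 ≤ H := (le_max_right _ _).trans hHH
    apply one_div_le_one_div_of_le (by positivity)
    exact pow_le_pow_right₀ hH1 hCC

/-- **The measure for the tuple `n`.** With `M = max n_v`: the bound `(M H) ^ (-C)` holds for all heights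
`2 ≤ H ≤ exp (exp (M ^ c))`, and the bound `H ^ (-C)` holds for arbitrarily large `H` in `𝓗`. -/
def Measured {K k : ℕ} (g : Fin K → RatFunc ℚ) (θ : ℂ) (d C : ℕ) (c : ℝ) (𝓗 : Set ℝ) (n : Fin k → ℕ) : Prop :=
  (∀ H : ℝ, 2 ≤ H → H ≤ Real.exp (Real.exp (((univ.sup n : ℕ) : ℝ) ^ c)) →
    ¬ Fails (vals g n) (fun _ : Fin 1 => θ) d H (1 / (((univ.sup n : ℕ) : ℝ) * H) ^ C)) ∧
  ∀ H₀ : ℝ, ∃ H ∈ 𝓗, H₀ ≤ H ∧ ¬ Fails (vals g n) (fun _ : Fin 1 => θ) d H (1 / H ^ C)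

lemma small_count (k X N₀ : ℕ) :
    {n : Fin k → ℕ | (∀ i, n i ≤ X) ∧ ∃ i, n i < N₀}.ncard ≤ k * (N₀ * (X + 1) ^ (k - 1)) := by
  have hsub : {n : Fin k → ℕ | (∀ i, n i ≤ X) ∧ ∃ i, n i < N₀} ⊆
      (((univ : Finset (Fin k)).biUnion (fun i => Fintype.piFinset (fun j => if j = i then range N₀ else range (X + 1))) :
        Finset (Fin k → ℕ)) : Set (Fin k → ℕ)) := by
    rintro w ⟨h1, i, hi⟩
    rw [mem_coe, mem_biUnion]
    refine ⟨i, mem_univ _, ?_⟩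
    rw [Fintype.mem_piFinset]
    intro j
    split_ifs with hj
    · rw [hj, mem_range]; exact hi
    · rw [mem_range]; exact Nat.lt_succ_of_le (h1 j)
  refine (Set.ncard_le_ncard hsub (Finset.finite_toSet _)).trans ?_
  rw [Set.ncard_coe_finset]
  refine card_biUnion_le.trans ?_
  refine (sum_le_card_nsmul _ _ (N₀ * (X + 1) ^ (k - 1)) fun i _ => ?_).trans (by simp)
  rw [Fintype.card_piFinset]
  have e : ∀ j : Fin k, (if j = i then range N₀ else range (X + 1)).card = if j = i then N₀ else X + 1 := by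
    intro j
    split_ifs <;> simp
  rw [prod_congr rfl fun j _ => e j, ← mul_prod_erase univ _ (mem_univ i), if_pos rfl]
  apply Nat.mul_le_mul_left
  rw [prod_congr rfl fun j hj => if_neg (ne_of_mem_erase hj), prod_const, card_erase_of_mem (mem_univ i), card_univ,
    Fintype.card_fin]

/-- **The count.** -/
theorem rf_count {K : ℕ} (m d : ℕ) (hm : 1 ≤ m) (g : Fin K → RatFunc ℚ) (hg : MI g) (θ : ℂ)
    (hθ : θ = Real.pi ∨ ∃ q : ℚ, 0 < q ∧ q ≠ 1 ∧ θ = ((Real.log q : ℝ) : ℂ)) :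
    ∃ (C : ℕ) (c K₀ : ℝ), 0 < C ∧ 0 < c ∧ c ≤ 1 ∧ 0 ≤ K₀ ∧ ∀ 𝓗 : Set ℝ, ¬ BddAbove 𝓗 → ∀ X : ℕ, 1 ≤ X →
      ({n : Fin m → ℕ | (∀ v, n v ≤ X) ∧ ¬ Measured g θ d C c 𝓗 n}.ncard : ℝ) ≤ K₀ * (X : ℝ) ^ ((m : ℝ) - c) := by
  classical
  obtain ⟨C₁, hC₁, h⟩ := short_boxes m d g hg θ hθ
  have hC₁R : (1 : ℝ) ≤ C₁ := by exact_mod_cast hC₁
  set c : ℝ := 1 / (4 * C₁) with hc
  have hc0 : 0 < c := by positivity
  have hc4 : c ≤ 1 / 4 := by
    rw [hc]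
    apply one_div_le_one_div_of_le (by norm_num)
    linarith
  have hmR : (1 : ℝ) ≤ m := by exact_mod_cast hm
  refine ⟨5 * C₁, c, 2 ^ m * 3 ^ (2 * C₁) + m * 2 ^ m + 4 * 2 ^ m * C₁, by omega, hc0, by linarith, by positivity,
    fun 𝓗 h𝓗 X hX => ?_⟩
  have hXR : (1 : ℝ) ≤ X := by exact_mod_cast hX
  have hX0 : (0 : ℝ) < X := by linarith
  have hfinX : {n : Fin m → ℕ | ∀ v, n v ≤ X}.Finite := by
    refine (Fintype.piFinset (fun _ : Fin m => range (X + 1))).finite_toSet.subset ?_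
    intro n hn
    rw [mem_coe, Fintype.mem_piFinset]
    exact fun v => mem_range.2 (Nat.lt_succ_of_le (hn v))
  have hcardX : {n : Fin m → ℕ | ∀ v, n v ≤ X}.ncard ≤ (X + 1) ^ m := by
    have : {n : Fin m → ℕ | ∀ v, n v ≤ X} ⊆ (Fintype.piFinset (fun _ : Fin m => range (X + 1)) : Set (Fin m → ℕ)) := by
      intro n hn
      rw [mem_coe, Fintype.mem_piFinset]
      exact fun v => mem_range.2 (Nat.lt_succ_of_le (hn v))
    refine (Set.ncard_le_ncard this (Finset.finite_toSet _)).trans ?_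
    rw [Set.ncard_coe_finset, Fintype.card_piFinset]
    simp
  set P : ℝ := (X : ℝ) ^ ((1 : ℝ) / (2 * C₁)) with hP
  have hP1 : 1 ≤ P := Real.one_le_rpow hXR (by positivity)
  have hPX : P ^ (2 * C₁) = X := by
    rw [hP, ← Real.rpow_natCast, ← Real.rpow_mul hX0.le]
    have : (1 : ℝ) / (2 * C₁) * ((2 * C₁ : ℕ) : ℝ) = 1 := by
      push_cast
      field_simp
    rw [this, Real.rpow_one]
  have hPc : P = (X : ℝ) ^ (2 * c) := by
    rw [hP, hc]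
    congr 1
    field_simp
    norm_num
  rcases lt_or_ge P 3 with hP3 | hP3
  · -- small `X`
    have h1 : (X : ℝ) ≤ 3 ^ (2 * C₁) := by
      rw [← hPX]
      exact pow_le_pow_left₀ (by linarith) hP3.le _
    have hs0 : {n : Fin m → ℕ | (∀ v, n v ≤ X) ∧ ¬ Measured g θ d (5 * C₁) c 𝓗 n} ⊆ {n : Fin m → ℕ | ∀ v, n v ≤ X} :=
      fun n hn => hn.1
    have h2 : ({n : Fin m → ℕ | (∀ v, n v ≤ X) ∧ ¬ Measured g θ d (5 * C₁) c 𝓗 n}.ncard : ℝ) ≤ ((X + 1) ^ m : ℕ) := by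
      exact_mod_cast (Set.ncard_le_ncard hs0 hfinX).trans hcardX
    have h3 : (((X + 1) ^ m : ℕ) : ℝ) ≤ 2 ^ m * (X : ℝ) ^ m := by
      push_cast
      rw [← mul_pow]
      exact pow_le_pow_left₀ (by positivity) (by linarith) _
    have h4 : (X : ℝ) ^ m = (X : ℝ) ^ ((m : ℝ) - c) * (X : ℝ) ^ c := by
      rw [← Real.rpow_natCast, ← Real.rpow_add hX0]
      congr 1
      ring
    have h5 : (X : ℝ) ^ c ≤ 3 ^ (2 * C₁) := by
      refine le_trans ?_ h1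
      calc (X : ℝ) ^ c ≤ (X : ℝ) ^ (1 : ℝ) := Real.rpow_le_rpow_of_exponent_le hXR (by linarith)
        _ = X := Real.rpow_one _
    have h6 : 0 ≤ (X : ℝ) ^ ((m : ℝ) - c) := by positivity
    calc _ ≤ 2 ^ m * (X : ℝ) ^ m := h2.trans h3
      _ = 2 ^ m * (X : ℝ) ^ c * (X : ℝ) ^ ((m : ℝ) - c) := by rw [h4]; ring
      _ ≤ 2 ^ m * 3 ^ (2 * C₁) * (X : ℝ) ^ ((m : ℝ) - c) := by gcongr
      _ ≤ _ := by
          apply mul_le_mul_of_nonneg_right _ h6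
          have : (0 : ℝ) ≤ m * 2 ^ m + 4 * 2 ^ m * C₁ := by positivity
          linarith
  -- large `X`
  set W : ℕ := ⌊P⌋₊ with hW
  have hW3 : 3 ≤ W := Nat.le_floor (by exact_mod_cast hP3)
  have hW3R : (3 : ℝ) ≤ W := by exact_mod_cast hW3
  have hWP : (W : ℝ) ≤ P := Nat.floor_le (by linarith)
  have hPW : P < W + 1 := Nat.lt_floor_add_one _
  obtain ⟨w, hw⟩ : ∃ w, w = W - 2 := ⟨_, rfl⟩
  have hw2 : w + 2 = W := by omega
  have hwR : (w : ℝ) + 2 = W := by exact_mod_cast hw2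
  set N₀ : ℕ := W ^ C₁ with hN₀
  have hN₀3 : 3 ≤ N₀ := hW3.trans (Nat.le_self_pow (by omega) _)
  have hN₀R : (N₀ : ℝ) ≤ (X : ℝ) ^ ((1 : ℝ) / 2) := by
    have h1 : (N₀ : ℝ) ≤ P ^ C₁ := by
      rw [hN₀]
      push_cast
      exact pow_le_pow_left₀ (by positivity) hWP _
    refine h1.trans (le_of_eq ?_)
    rw [hP, ← Real.rpow_natCast, ← Real.rpow_mul hX0.le]
    congr 1
    field_simp
  have hXN : (X : ℝ) ≤ (N₀ : ℝ) ^ 4 := by
    rw [← hPX, hN₀]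
    push_cast
    calc P ^ (2 * C₁) ≤ ((W : ℝ) ^ 2) ^ (2 * C₁) := pow_le_pow_left₀ (by linarith) (by nlinarith) _
      _ = ((W : ℝ) ^ C₁) ^ 4 := by rw [← pow_mul, ← pow_mul]; congr 1; ring
  have hXc1 : 1 ≤ (X : ℝ) ^ c := Real.one_le_rpow hXR hc0.le
  set R : ℕ := X / (w + 1) + 1 with hR
  have hw1X : ((w : ℝ) + 1) ≤ X := by
    have h1 : P ≤ P ^ (2 * C₁) := le_self_pow₀ hP1 (by omega)
    rw [hPX] at h1
    linarith
  have hw10 : (0 : ℝ) < (w : ℝ) + 1 := by positivity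
  have hRR : (R : ℝ) * (w + 1) ≤ 2 * X := by
    have h1 : ((X / (w + 1) : ℕ) : ℝ) * (w + 1) ≤ X := by
      have := Nat.div_mul_le_self X (w + 1)
      exact_mod_cast this
    rw [hR]
    push_cast
    push_cast at h1
    nlinarith
  -- the exceptional sets in the boxes
  set Exc : (Fin m → ℕ) → Set (Fin m → ℕ) := fun i =>
    {n ∈ Box (fun v => N₀ + i v * (w + 1)) w | ∃ H : ℝ, 2 ≤ H ∧ H ≤ Real.exp (Real.exp ((X : ℝ) ^ c)) ∧
          Fails (vals g n) (fun _ : Fin 1 => θ) d H (1 / (((2 * X : ℕ) : ℝ) * H) ^ C₁)} ∪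
    {n ∈ Box (fun v => N₀ + i v * (w + 1)) w | ∃ H₀ : ℝ, ∀ H ∈ 𝓗, H₀ ≤ H →
      Fails (vals g n) (fun _ : Fin 1 => θ) d H (1 / H ^ C₁)} with hExc
  have hExcfin : ∀ i, (Exc i).Finite := fun i =>
    ((box_finite _ _).subset fun n hn => hn.1).union ((box_finite _ _).subset fun n hn => hn.1)
  have hExcc : ∀ i ∈ Fintype.piFinset (fun _ : Fin m => range R), ((Exc i).ncard : ℝ) * (w + 1) ≤
      2 * C₁ * (X : ℝ) ^ c * (w + 1) ^ m := by
    intro i hi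
    rw [Fintype.mem_piFinset] at hi
    have hcorner : ∀ v, (w + 2) ^ C₁ ≤ N₀ + i v * (w + 1) := by
      intro v
      rw [hw2]
      exact Nat.le_add_right _ _
    obtain ⟨h1, h2⟩ := h (fun v => N₀ + i v * (w + 1)) w hcorner
    have h3 := h1 (2 * X) (by omega) (by
      intro v
      have h4 := mem_range.1 (hi v)
      have h5 : i v * (w + 1) ≤ X := by
        have : i v ≤ X / (w + 1) := by omega
        exact (Nat.mul_le_mul_right _ this).trans (Nat.div_mul_le_self _ _)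
      have h6 : (N₀ : ℝ) ≤ X := by
        refine hN₀R.trans ?_
        calc (X : ℝ) ^ ((1 : ℝ) / 2) ≤ (X : ℝ) ^ (1 : ℝ) := Real.rpow_le_rpow_of_exponent_le hXR (by norm_num)
          _ = X := Real.rpow_one _
      have h7 : N₀ ≤ X := by exact_mod_cast h6
      show N₀ + i v * (w + 1) ≤ 2 * X
      omega) _ hXc1
    have h4 := h2 𝓗 h𝓗
    have h5 : (({n ∈ Box (fun v => N₀ + i v * (w + 1)) w | ∃ H₀ : ℝ, ∀ H ∈ 𝓗, H₀ ≤ H →
      Fails (vals g n) (fun _ : Fin 1 => θ) d H (1 / H ^ C₁)}.ncard : ℕ) : ℝ) * (w + 1) ≤ C₁ * (w + 1) ^ m := by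
      exact_mod_cast h4
    have h6 : ((Exc i).ncard : ℝ) ≤
        ({n ∈ Box (fun v => N₀ + i v * (w + 1)) w | ∃ H : ℝ, 2 ≤ H ∧ H ≤ Real.exp (Real.exp ((X : ℝ) ^ c)) ∧
          Fails (vals g n) (fun _ : Fin 1 => θ) d H (1 / (((2 * X : ℕ) : ℝ) * H) ^ C₁)}.ncard : ℝ) +
        ({n ∈ Box (fun v => N₀ + i v * (w + 1)) w | ∃ H₀ : ℝ, ∀ H ∈ 𝓗, H₀ ≤ H →
          Fails (vals g n) (fun _ : Fin 1 => θ) d H (1 / H ^ C₁)}.ncard : ℝ) := by
      exact_mod_cast Set.ncard_union_le _ _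
    have h7 : (0 : ℝ) ≤ (w + 1 : ℝ) ^ m := by positivity
    calc ((Exc i).ncard : ℝ) * (w + 1) ≤ C₁ * (X : ℝ) ^ c * (w + 1) ^ m + C₁ * (w + 1) ^ m := by
          refine (mul_le_mul_of_nonneg_right h6 hw10.le).trans ?_
          rw [add_mul]
          exact add_le_add h3 h5
      _ ≤ C₁ * (X : ℝ) ^ c * (w + 1) ^ m + C₁ * (X : ℝ) ^ c * (w + 1) ^ m := by
          have : (C₁ : ℝ) ≤ C₁ * (X : ℝ) ^ c := le_mul_of_one_le_right (by positivity) hXc1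
          have := mul_le_mul_of_nonneg_right this h7
          linarith
      _ = _ := by ring
  have hsub : {n : Fin m → ℕ | (∀ v, n v ≤ X) ∧ ¬ Measured g θ d (5 * C₁) c 𝓗 n} ⊆
      {n : Fin m → ℕ | (∀ i, n i ≤ X) ∧ ∃ i, n i < N₀} ∪
      ((Fintype.piFinset (fun _ : Fin m => range R)).biUnion fun i => (hExcfin i).toFinset : Finset (Fin m → ℕ)) := by
    rintro n ⟨hn, hnm⟩
    by_cases hsm : ∃ v, n v < N₀
    · exact Or.inl ⟨hn, hsm⟩
    right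
    push Not at hsm
    rw [mem_coe, mem_biUnion]
    refine ⟨fun v => (n v - N₀) / (w + 1), ?_, ?_⟩
    · rw [Fintype.mem_piFinset]
      intro v
      rw [mem_range]
      refine Nat.lt_succ_of_le (Nat.div_le_div_right ?_)
      have := hn v
      omega
    rw [Set.Finite.mem_toFinset]
    have hbox : n ∈ Box (fun v => N₀ + (n v - N₀) / (w + 1) * (w + 1)) w := by
      intro v
      have h1 := hsm v
      have h2 := Nat.div_add_mod (n v - N₀) (w + 1)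
      have h3 := Nat.mod_lt (n v - N₀) (Nat.succ_pos w)
      have h4 : (n v - N₀) / (w + 1) * (w + 1) = (w + 1) * ((n v - N₀) / (w + 1)) := mul_comm _ _
      show N₀ + (n v - N₀) / (w + 1) * (w + 1) ≤ n v ∧ n v ≤ N₀ + (n v - N₀) / (w + 1) * (w + 1) + w
      rw [h4]
      have h5 : (n v - N₀) % (w + 1) < w + 1 := h3
      omega
    by_contra hnot
    apply hnm
    rw [hExc] at hnot
    simp only [Set.mem_union, Set.mem_sep_iff, hbox, true_and, not_or, not_exists, not_and, not_forall] at hnot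
    obtain ⟨hA, hB⟩ := hnot
    -- the maximum
    have hsupX : univ.sup n ≤ X := Finset.sup_le fun v _ => hn v
    have hsupN : N₀ ≤ univ.sup n := (hsm ⟨0, hm⟩).trans (Finset.le_sup (mem_univ _))
    have hsupR : (N₀ : ℝ) ≤ ((univ.sup n : ℕ) : ℝ) := by exact_mod_cast hsupN
    have hN₀R3 : (3 : ℝ) ≤ N₀ := by exact_mod_cast hN₀3
    set M : ℝ := ((univ.sup n : ℕ) : ℝ) with hMdef
    have hMX : M ≤ X := by
      rw [hMdef]
      exact_mod_cast hsupX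
    have hM3 : 3 ≤ M := hN₀R3.trans hsupR
    refine ⟨fun H hH hHM hf => ?_, fun H₀ => ?_⟩
    · refine hA H hH (hHM.trans ?_) (fails_mono _ _ _ _ ?_ hf)
      · apply Real.exp_le_exp.2
        apply Real.exp_le_exp.2
        exact Real.rpow_le_rpow (by linarith) hMX hc0.le
      · apply one_div_le_one_div_of_le (by positivity)
        rw [pow_mul]
        refine pow_le_pow_left₀ (by positivity) ?_ C₁
        push_cast
        have h1 : (X : ℝ) ≤ M ^ 4 := hXN.trans (pow_le_pow_left₀ (by positivity) hsupR 4)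
        have h2 : 2 * (X : ℝ) ≤ M ^ 5 := by
          calc 2 * (X : ℝ) ≤ M * M ^ 4 := mul_le_mul (by linarith) h1 (by positivity) (by linarith)
            _ = M ^ 5 := by ring
        calc 2 * (X : ℝ) * H ≤ M ^ 5 * H ^ 5 :=
              mul_le_mul h2 (le_self_pow₀ (by linarith) (by norm_num)) (by linarith) (by positivity)
          _ = (M * H) ^ 5 := (mul_pow _ _ _).symm
    · obtain ⟨H, hH, hHH, hf⟩ := hB (max H₀ 1)
      refine ⟨H, hH, (le_max_left _ _).trans hHH, fun hf' => hf (fails_mono _ _ _ _ ?_ hf')⟩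
      have hH1 : 1 ≤ H := (le_max_right _ _).trans hHH
      apply one_div_le_one_div_of_le (by positivity)
      exact pow_le_pow_right₀ hH1 (by omega)
  have hsub2 := Set.ncard_le_ncard hsub ((hfinX.subset fun n hn => hn.1).union (Finset.finite_toSet _))
  have h1 : ({n : Fin m → ℕ | (∀ v, n v ≤ X) ∧ ¬ Measured g θ d (5 * C₁) c 𝓗 n}.ncard : ℝ) ≤
      ({n : Fin m → ℕ | (∀ i, n i ≤ X) ∧ ∃ i, n i < N₀}.ncard : ℝ) +
        ∑ i ∈ Fintype.piFinset (fun _ : Fin m => range R), ((Exc i).ncard : ℝ) := by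
    have h2 := hsub2.trans (Set.ncard_union_le _ _)
    rw [Set.ncard_coe_finset] at h2
    have h3 := h2.trans (Nat.add_le_add_left card_biUnion_le _)
    have h4 : ∀ i, (hExcfin i).toFinset.card = (Exc i).ncard := fun i => (Set.ncard_eq_toFinset_card _ (hExcfin i)).symm
    simp only [h4] at h3
    exact_mod_cast h3
  have hA : ({n : Fin m → ℕ | (∀ i, n i ≤ X) ∧ ∃ i, n i < N₀}.ncard : ℝ) ≤ m * 2 ^ m * (X : ℝ) ^ ((m : ℝ) - c) := by
    have h2 : ({n : Fin m → ℕ | (∀ i, n i ≤ X) ∧ ∃ i, n i < N₀}.ncard : ℝ) ≤ m * (N₀ * (X + 1) ^ (m - 1)) := by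
      exact_mod_cast small_count m X N₀
    have h3 : ((X : ℝ) + 1) ^ (m - 1) ≤ 2 ^ m * (X : ℝ) ^ ((m : ℝ) - 1) := by
      calc ((X : ℝ) + 1) ^ (m - 1) ≤ (2 * (X : ℝ)) ^ (m - 1) := pow_le_pow_left₀ (by positivity) (by linarith) _
        _ = 2 ^ (m - 1) * (X : ℝ) ^ (m - 1) := mul_pow _ _ _
        _ ≤ 2 ^ m * (X : ℝ) ^ ((m : ℝ) - 1) := by
            have e1 : (X : ℝ) ^ (m - 1) = (X : ℝ) ^ ((m : ℝ) - 1) := by
              rw [← Real.rpow_natCast, Nat.cast_sub hm, Nat.cast_one]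
            rw [e1]
            apply mul_le_mul_of_nonneg_right _ (by positivity)
            exact pow_le_pow_right₀ (by norm_num) (by omega)
    calc _ ≤ (m : ℝ) * (N₀ * (X + 1) ^ (m - 1)) := h2
      _ ≤ m * ((X : ℝ) ^ ((1 : ℝ) / 2) * (2 ^ m * (X : ℝ) ^ ((m : ℝ) - 1))) := by gcongr
      _ = m * 2 ^ m * ((X : ℝ) ^ ((1 : ℝ) / 2) * (X : ℝ) ^ ((m : ℝ) - 1)) := by ring
      _ = m * 2 ^ m * (X : ℝ) ^ ((1 : ℝ) / 2 + ((m : ℝ) - 1)) := by rw [Real.rpow_add hX0]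
      _ ≤ m * 2 ^ m * (X : ℝ) ^ ((m : ℝ) - c) := by
          apply mul_le_mul_of_nonneg_left _ (by positivity)
          exact Real.rpow_le_rpow_of_exponent_le hXR (by linarith)
  have hB : ∑ i ∈ Fintype.piFinset (fun _ : Fin m => range R), ((Exc i).ncard : ℝ) ≤
      4 * 2 ^ m * C₁ * (X : ℝ) ^ ((m : ℝ) - c) := by
    have h2 : (∑ i ∈ Fintype.piFinset (fun _ : Fin m => range R), ((Exc i).ncard : ℝ)) * (w + 1) ≤
        (R : ℝ) ^ m * (2 * C₁ * (X : ℝ) ^ c * (w + 1) ^ m) := by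
      rw [sum_mul]
      refine (sum_le_card_nsmul _ _ _ hExcc).trans (le_of_eq ?_)
      rw [Fintype.card_piFinset, nsmul_eq_mul]
      simp
    have h3 : (R : ℝ) ^ m * (2 * C₁ * (X : ℝ) ^ c * (w + 1) ^ m) ≤ 2 * C₁ * (X : ℝ) ^ c * (2 * X) ^ m := by
      calc (R : ℝ) ^ m * (2 * C₁ * (X : ℝ) ^ c * (w + 1) ^ m) = 2 * C₁ * (X : ℝ) ^ c * ((R : ℝ) * (w + 1)) ^ m := by
            rw [mul_pow]; ring
        _ ≤ _ := by gcongr
    have h4 : P / 2 ≤ (w : ℝ) + 1 := by linarith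
    have h5 : (∑ i ∈ Fintype.piFinset (fun _ : Fin m => range R), ((Exc i).ncard : ℝ)) * (P / 2) ≤
        2 * C₁ * (X : ℝ) ^ c * (2 * X) ^ m := by
      refine le_trans ?_ (h2.trans h3)
      apply mul_le_mul_of_nonneg_left h4
      positivity
    have hP0 : 0 < P / 2 := by linarith
    rw [← le_div_iff₀ hP0] at h5
    refine h5.trans (le_of_eq ?_)
    have e1 : (X : ℝ) ^ ((m : ℝ) - c) = (X : ℝ) ^ m * (X : ℝ) ^ c / P := by
      rw [hPc, ← Real.rpow_natCast, ← Real.rpow_add hX0, ← Real.rpow_sub hX0]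
      congr 1
      ring
    rw [e1, mul_pow]
    field_simp
    ring
  have h6 : 0 ≤ (X : ℝ) ^ ((m : ℝ) - c) := by positivity
  calc _ ≤ m * 2 ^ m * (X : ℝ) ^ ((m : ℝ) - c) + 4 * 2 ^ m * C₁ * (X : ℝ) ^ ((m : ℝ) - c) := h1.trans (add_le_add hA hB)
    _ = (m * 2 ^ m + 4 * 2 ^ m * C₁) * (X : ℝ) ^ ((m : ℝ) - c) := by ring
    _ ≤ _ := by
        apply mul_le_mul_of_nonneg_right _ h6
        have : (0 : ℝ) ≤ 2 ^ m * 3 ^ (2 * C₁) := by positivity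
        linarith

end Pool.Agent.Zk39.Tr
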