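import Pool.Agent.Zk39.GD.Final2
import Pool.Agent.N578.TG.Dyadic

/-!
# Leigh's classes with `Λ_C < 1`: the number of the trajectories which do not descend to a power of the starting value
-/

set_option autoImplicit false

namespace Pool.Agent.Zk39.Tr

open Pool.Agent.H319R2.Leigh Pool.Agent.Zk39.GD

/-- the trajectory of `x` enters `[-|x|^δ, |x|^δ]` -/
def Falls (d : ℕ) (m r : ℤ → ℤ) (δ : ℝ) (x : ℤ) : Prop :=
  ∃ n : ℕ, |(((T d m r)^[n] x : ℤ) : ℝ)| ≤ |(x : ℝ)| ^ δ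

theorem fin_int (P : ℤ → Prop) (X : ℝ) : {x : ℤ | P x ∧ |(x : ℝ)| ≤ X}.Finite := by
  refine (Set.finite_Icc (-⌊X⌋) ⌊X⌋).subset ?_
  rintro x ⟨-, h1⟩
  have h2 := abs_le.1 h1
  rw [Set.mem_Icc]
  constructor
  · have : -x ≤ ⌊X⌋ := Int.le_floor.2 (by push_cast; linarith)
    linarith
  · exact Int.le_floor.2 h2.2

theorem exc {d : ℕ} {m r b : ℤ → ℤ} {e : ℤ → ℕ} (D : Data d m r b e) {C : Finset (ℤ × ℕ)} {ρ : ℤ × ℕ → ℝ}
    (hC : Class d m r e C ρ) (hL : Lam d m C ρ < 1) :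
    ∃ c : ℝ, 0 < c ∧
    (∃ A : ℝ, 0 ≤ A ∧ ∀ X y : ℝ, 1 ≤ X → 1 ≤ y →
      (Set.ncard {x : ℤ | x ∈ S d C ∧ |(x : ℝ)| ≤ X ∧ ∀ n : ℕ, y < |(((T d m r)^[n] x : ℤ) : ℝ)|} : ℝ) ≤
        A * X / y ^ c) ∧
    ∀ δ : ℝ, 0 < δ → ∀ ε : ℝ, 0 < ε → ∃ K : ℝ, ∀ X : ℝ, 1 ≤ X →
      {x : ℤ | (x ∈ S d C ∧ ¬ Falls d m r δ x) ∧ |(x : ℝ)| ≤ X}.Finite ∧
      ({x : ℤ | (x ∈ S d C ∧ ¬ Falls d m r δ x) ∧ |(x : ℝ)| ≤ X}.ncard : ℝ) ≤ K * X ^ (max (1 - c * δ) 0 + ε) := by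
  obtain ⟨c, hc, A₀, hA₀⟩ := leigh_power D hC hL
  set A : ℝ := |A₀| with hAdef
  have hA0 : 0 ≤ A := abs_nonneg _
  have hA : ∀ X y : ℝ, 1 ≤ X → 1 ≤ y →
      (Set.ncard {x : ℤ | x ∈ S d C ∧ |(x : ℝ)| ≤ X ∧ ∀ n : ℕ, y < |(((T d m r)^[n] x : ℤ) : ℝ)|} : ℝ) ≤
        A * X / y ^ c := by
    intro X y hX hy
    refine (hA₀ X y hX hy).trans ?_
    apply div_le_div_of_nonneg_right _ (by positivity)
    exact mul_le_mul_of_nonneg_right (le_abs_self _) (by linarith)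
  refine ⟨c, hc, ⟨A, hA0, hA⟩, fun δ hδ ε hε => ?_⟩
  have hs : 0 < max (1 - c * δ) 0 + ε := by
    have := le_max_right (1 - c * δ) 0
    linarith
  obtain ⟨K, hK0, hK⟩ := Pool.Agent.N578.TG.dyadic
    {x : ℤ | x ∈ S d C ∧ ¬ Falls d m r δ x} (C := A * 2 ^ (c * δ)) hs (fun X hX => by
      have hX1 : 1 ≤ X := by linarith
      have hX0 : 0 < X := by linarith
      have hy1 : 1 ≤ (X / 2) ^ δ := Real.one_le_rpow (by linarith) hδ.le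
      have h2 := hA X ((X / 2) ^ δ) hX1 hy1
      have hfin : {x : ℤ | x ∈ S d C ∧ |(x : ℝ)| ≤ X ∧
          ∀ n : ℕ, (X / 2) ^ δ < |(((T d m r)^[n] x : ℤ) : ℝ)|}.Finite := by
        refine (fin_int (fun x => x ∈ S d C) X).subset ?_
        rintro x ⟨h1, h2, -⟩
        exact ⟨h1, h2⟩
      have hsub : {x : ℤ | x ∈ {x : ℤ | x ∈ S d C ∧ ¬ Falls d m r δ x} ∧
          X / 2 < |(x : ℝ)| ∧ |(x : ℝ)| ≤ X} ⊆
          {x : ℤ | x ∈ S d C ∧ |(x : ℝ)| ≤ X ∧ ∀ n : ℕ, (X / 2) ^ δ < |(((T d m r)^[n] x : ℤ) : ℝ)|} := by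
        rintro x ⟨⟨g0, g1⟩, g2, g3⟩
        refine ⟨g0, g3, fun n => ?_⟩
        unfold Falls at g1
        push Not at g1
        exact lt_of_le_of_lt (Real.rpow_le_rpow (by linarith) g2.le hδ.le) (g1 n)
      have h3 : (((X / 2) ^ δ) ^ c) = X ^ (c * δ) / 2 ^ (c * δ) := by
        rw [← Real.rpow_mul (by linarith), mul_comm δ c, Real.div_rpow hX0.le (by norm_num)]
      have h4 : A * X / ((X / 2) ^ δ) ^ c = A * 2 ^ (c * δ) * X ^ (1 - c * δ) := by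
        rw [h3, Real.rpow_sub hX0, Real.rpow_one]
        have := Real.rpow_pos_of_pos hX0 (c * δ)
        have h5 : (0 : ℝ) < 2 ^ (c * δ) := by positivity
        field_simp
      calc _ ≤ (Set.ncard {x : ℤ | x ∈ S d C ∧ |(x : ℝ)| ≤ X ∧
            ∀ n : ℕ, (X / 2) ^ δ < |(((T d m r)^[n] x : ℤ) : ℝ)|} : ℝ) := by
            exact_mod_cast Set.ncard_le_ncard hsub hfin
        _ ≤ A * X / ((X / 2) ^ δ) ^ c := h2
        _ = A * 2 ^ (c * δ) * X ^ (1 - c * δ) := h4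
        _ ≤ A * 2 ^ (c * δ) * X ^ (max (1 - c * δ) 0 + ε) := by
          apply mul_le_mul_of_nonneg_left _ (by positivity)
          apply Real.rpow_le_rpow_of_exponent_le hX1
          have := le_max_left (1 - c * δ) 0
          linarith)
  exact ⟨K, hK⟩

end Pool.Agent.Zk39.Tr
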